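import Pool.Agent.P8H69.SN.AlgA
import Pool.Agent.P8H9.SN.Stm

/-!
# Package ALG of project SN
-/

set_option autoImplicit false

namespace Pool.Agent.P8H69.SN

open Pool.Agent.P8H9.SN

theorem t_ALG : S_ALG := by
  intro R _ _ _ m A δ r h0 hs hc hr
  exact alg_main m A δ r h0 hs hc hr

end Pool.Agent.P8H69.SN
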