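import Mathlib

/-!
# Divisibility of the Jacobian determinant in a UFD (package ALG of project SN)
-/

set_option autoImplicit false

namespace Pool.Agent.P8H69.SN

open Matrix

variable {R : Type} [CommRing R] [IsDomain R]

/-- divisibility in a UFD is checked on prime powers -/
theorem dvd_of_pow [UniqueFactorizationMonoid R] (a : R) :
    a ≠ 0 → ∀ b : R, (∀ π, Prime π → ∀ k, π ^ k ∣ a → π ^ k ∣ b) → a ∣ b := by
  induction a using UniqueFactorizationMonoid.induction_on_prime with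
  | h₁ => exact fun h => absurd rfl h
  | h₂ x hx => intro _ b _; exact hx.dvd
  | h₃ a p ha0 hp ih =>
    intro _ b hb
    have h1 : p ∣ b := by simpa using hb p hp 1 (by simp)
    obtain ⟨b', rfl⟩ := h1
    refine mul_dvd_mul_left p (ih ha0 b' ?_)
    intro π hπ k hk
    by_cases h : π ∣ p
    · obtain ⟨u, hu⟩ := hπ.associated_of_dvd hp h
      have h2 : π ^ (k + 1) ∣ p * a := by rw [pow_succ']; exact mul_dvd_mul h hk
      have h3 := hb π hπ (k + 1) h2
      rw [← hu, pow_succ', mul_assoc] at h3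
      have h4 : π ^ k ∣ (u : R) * b' := (mul_dvd_mul_iff_left hπ.ne_zero).1 h3
      exact (Units.dvd_mul_left).1 h4
    · have h2 : π ^ k ∣ p * a := dvd_mul_of_dvd_right hk _
      exact hπ.pow_dvd_of_dvd_mul_left k h (hb π hπ k h2)

/-- the bordered determinant -/
theorem border {n : ℕ} (M Z : Matrix (Fin n) (Fin n) R) (w : Fin n → R) (G P g : Fin n → R) (π : R)
    (hM : ∀ i c, M i c = w i * G c + P c * Z i c) (hG : ∀ c, π * G c = P c * g c) :
    (∏ c, P c) ∣ π * M.det := by
  have h1 : M = (Matrix.of fun i c => P c * Z i c) - (Matrix.of fun (i : Fin n) (_ : Unit) => w i) *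
      (Matrix.of fun (_ : Unit) (c : Fin n) => - G c) := by
    ext i c
    simp only [Matrix.sub_apply, Matrix.of_apply, Matrix.mul_apply, Finset.univ_unique,
      Finset.sum_singleton, hM]
    ring
  have h2 : π * M.det = (Matrix.of fun i j : Unit ⊕ Fin n =>
      (Sum.elim (fun _ : Unit => π) (fun _ => (1 : R)) i) *
      (Matrix.fromBlocks (1 : Matrix Unit Unit R) (Matrix.of fun (_ : Unit) (c : Fin n) => - G c)
        (Matrix.of fun (i : Fin n) (_ : Unit) => w i) (Matrix.of fun i c => P c * Z i c)) i j).det := by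
    rw [Matrix.det_mul_column, Matrix.det_fromBlocks_one₁₁, ← h1]
    simp
  have h3 : (Matrix.of fun i j : Unit ⊕ Fin n =>
      (Sum.elim (fun _ : Unit => π) (fun _ => (1 : R)) i) *
      (Matrix.fromBlocks (1 : Matrix Unit Unit R) (Matrix.of fun (_ : Unit) (c : Fin n) => - G c)
        (Matrix.of fun (i : Fin n) (_ : Unit) => w i) (Matrix.of fun i c => P c * Z i c)) i j) =
      Matrix.of fun i j : Unit ⊕ Fin n => (Sum.elim (fun _ : Unit => (1 : R)) P j) *
        (Matrix.fromBlocks (Matrix.of fun (_ : Unit) (_ : Unit) => π)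
          (Matrix.of fun (_ : Unit) (c : Fin n) => - g c)
          (Matrix.of fun (i : Fin n) (_ : Unit) => w i) Z) i j := by
    ext i j
    rcases i with i | i <;> rcases j with j | j
    · simp
    · have := hG j
      simp only [Matrix.of_apply, Sum.elim_inl, Sum.elim_inr, Matrix.fromBlocks_apply₁₂]
      rw [mul_neg, mul_neg, this]
    · simp
    · simp
  rw [h2, h3, Matrix.det_mul_row, Fintype.prod_sum_type]
  simp

/-- derivative of `π ^ e * B` -/
theorem der_pow_mul (D : Derivation ℤ R R) (π B : R) (e : ℕ) :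
    D (π ^ e * B) = D π * ((e : R) * π ^ (e - 1) * B) + π ^ e * D B := by
  rw [D.leibniz, D.leibniz_pow]
  simp only [smul_eq_mul, nsmul_eq_mul]
  ring

/-- the matrix with the rows `A` and `δ i A` -/
def mat {m : ℕ} {C : Type} (A : C → R) (δ : Fin m → R → R) : Matrix (Fin (m + 1)) C R :=
  Matrix.of fun i c => (Fin.cases (A c) (fun i => δ i (A c)) i : R)

theorem local_dvd {m : ℕ} (A B : Fin (m + 1) → R) (δ : Fin m → Derivation ℤ R R) (π : R)
    (e : Fin (m + 1) → ℕ) (hA : ∀ c, A c = π ^ e c * B c) :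
    π ^ (∑ c, e c) ∣ π * (mat A (fun i => δ i)).det := by
  rw [← Finset.prod_pow_eq_pow_sum]
  refine border _ (mat B (fun i => δ i)) (Fin.cases 0 (fun i => δ i π))
    (fun c => (e c : R) * π ^ (e c - 1) * B c) (fun c => π ^ e c) (fun c => (e c : R) * B c) π ?_ ?_
  · intro i c
    refine Fin.cases ?_ (fun i => ?_) i
    · simp [mat, hA]
    · simp only [mat, Matrix.of_apply, Fin.cases_succ]
      rw [hA, der_pow_mul]
  · intro c
    rcases Nat.eq_zero_or_pos (e c) with h | h
    · simp [h]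
    · obtain ⟨k, hk⟩ := Nat.exists_eq_succ_of_ne_zero h.ne'
      rw [hk]
      simp only [Nat.succ_eq_add_one, Nat.add_sub_cancel, pow_succ]
      ring

/-- the determinants of the `m + 1` columns different from `σ0` -/
theorem det_change {m : ℕ} (A : Fin (m + 2) → R) (δ : Fin m → Derivation ℤ R R)
    (hs : ∑ σ, A σ = 0) (σ₀ : Fin (m + 2)) :
    (mat (fun c : Fin (m + 1) => A (σ₀.succAbove c)) (fun i => δ i)).det ∣
      (mat (fun c : Fin (m + 1) => A c.castSucc) (fun i => δ i)).det := by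
  have hv : ∀ i, ∑ j, (mat A (fun i => δ i)) i j = 0 := by
    intro i
    refine Fin.cases ?_ (fun i => ?_) i
    · simpa [mat] using hs
    · simp only [mat, Matrix.of_apply, Fin.cases_succ]
      rw [← map_sum, hs, map_zero]
  have h := Matrix.submatrix_succAbove_det_eq_negOnePow_submatrix_succAbove_det'
    (mat A (fun i => δ i)) hv (Fin.last _) σ₀
  have h1 : (mat A (fun i => δ i)).submatrix id (Fin.last (m + 1)).succAbove =
      mat (fun c : Fin (m + 1) => A c.castSucc) (fun i => δ i) := by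
    ext i c; simp [mat]
  have h2 : (mat A (fun i => δ i)).submatrix id σ₀.succAbove =
      mat (fun c : Fin (m + 1) => A (σ₀.succAbove c)) (fun i => δ i) := by
    ext i c; simp [mat]
  rw [h1, h2] at h
  rw [h]
  rw [Units.smul_def, zsmul_eq_mul]
  exact dvd_mul_left _ _

theorem alg_main [UniqueFactorizationMonoid R] (m : ℕ)
    (A : Fin (m + 2) → R) (δ : Fin m → Derivation ℤ R R) (r : R)
    (h0 : ∀ σ, A σ ≠ 0) (hs : ∑ σ, A σ = 0) (hc : ∀ π, Prime π → ∃ σ, ¬ π ∣ A σ)
    (hr : ∀ π, Prime π → (∃ σ, π ∣ A σ) → π ∣ r) :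
    (∏ σ, A σ) ∣ r * (mat (fun c : Fin (m + 1) => A c.castSucc) (fun i => δ i)).det := by
  refine dvd_of_pow _ (Finset.prod_ne_zero_iff.2 fun σ _ => h0 σ) _ ?_
  intro π hπ k hk
  have hfac : ∀ σ, ∃ e : ℕ, ∃ B : R, ¬ π ∣ B ∧ A σ = π ^ e * B := by
    intro σ
    have hf : FiniteMultiplicity π (A σ) := FiniteMultiplicity.of_prime_left hπ (h0 σ)
    obtain ⟨c, hc1, hc2⟩ := hf.exists_eq_pow_mul_and_not_dvd
    exact ⟨_, c, hc2, hc1⟩
  choose e B hB hA using hfac
  have hle : k ≤ ∑ σ, e σ := by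
    by_contra hcon
    push Not at hcon
    have h1 : π ^ (∑ σ, e σ + 1) ∣ ∏ σ, A σ := (pow_dvd_pow π hcon).trans hk
    have h2 : ∏ σ, A σ = π ^ (∑ σ, e σ) * ∏ σ, B σ := by
      rw [← Finset.prod_pow_eq_pow_sum, ← Finset.prod_mul_distrib]
      exact Finset.prod_congr rfl fun σ _ => hA σ
    rw [h2, pow_succ] at h1
    have h3 : π ∣ ∏ σ, B σ := (mul_dvd_mul_iff_left (pow_ne_zero _ hπ.ne_zero)).1 h1
    obtain ⟨σ, _, h4⟩ := (Prime.dvd_finsetProd_iff hπ _).1 h3
    exact hB σ h4
  refine (pow_dvd_pow π hle).trans ?_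
  by_cases hall : ∀ σ, e σ = 0
  · simp [hall]
  · push Not at hall
    obtain ⟨σ₁, h1⟩ := hall
    have hπr : π ∣ r := by
      refine hr π hπ ⟨σ₁, ?_⟩
      rw [hA]
      exact dvd_mul_of_dvd_left (dvd_pow_self _ h1) _
    obtain ⟨σ₀, hσ₀⟩ := hc π hπ
    have he0 : e σ₀ = 0 := by
      by_contra h
      apply hσ₀
      rw [hA]
      exact dvd_mul_of_dvd_left (dvd_pow_self _ h) _
    have h2 := local_dvd (fun c => A (σ₀.succAbove c)) (fun c => B (σ₀.succAbove c)) δ π
      (fun c => e (σ₀.succAbove c)) (fun c => hA _)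
    rw [Fin.sum_univ_succAbove e σ₀, he0, zero_add]
    exact h2.trans (mul_dvd_mul hπr (det_change A δ hs σ₀))

end Pool.Agent.P8H69.SN
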